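import Pool.Agent.X5.LPS.One

/-!
# Few `k`-th powers summing to a `k`-th power: small digit sums in a common base

Let `2 ≤ m`, `m ^ 2 ≤ k` and `a₁ ^ k + ... + aₘ ^ k = c ^ k` in positive integers whose digit sums
in a common base `b > m H ^ k` are at most `H`. Then some `k`-th power of a positive integer `≤ H`
is the sum of at least two and at most `m` positive `k`-th powers, and `k ≤ m (H - 1)`.
-/

set_option autoImplicit false

namespace Pool.Agent.Results.MP_4faf10_nt.SmallDigits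

theorem result (k m : ℕ) (hm2 : 2 ≤ m) (hm : m ^ 2 ≤ k) (H b : ℕ) (hb : m * H ^ k < b)
    (a : Fin m → ℕ) (c : ℕ) (ha : ∀ i, 0 < a i ∧ (b.digits (a i)).sum ≤ H)
    (hc : 0 < c ∧ (b.digits c).sum ≤ H) (he : ∑ i, a i ^ k = c ^ k) :
    (∃ (I : Finset (Fin m)) (u : Fin m → ℕ) (v : ℕ), 2 ≤ I.card ∧ (∀ i ∈ I, 0 < u i) ∧
      0 < v ∧ v ≤ H ∧ ∑ i ∈ I, u i ^ k = v ^ k) ∧ k ≤ m * (H - 1) :=
  Pool.Agent.X5.LPS.one_side k m hm2 hm H b hb a c ha hc he

end Pool.Agent.Results.MP_4faf10_nt.SmallDigits
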